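import Pool.Agent.UL6.Stmts

/-!
Squad UL6 (MP_c7c9bf_co), row CHC: the alternative for the chord at level `h`.
-/

set_option autoImplicit false

namespace Pool.Agent.UL6.H27

open MeasureTheory Set Pool.Agent.UL3 Pool.Agent.UL4 Pool.Agent.UL5

theorem cr_add_r (a b c : ℝ × ℝ) : cr a (b + c) = cr a b + cr a c := by
  unfold cr
  simp only [Prod.fst_add, Prod.snd_add]
  ring

theorem cr_smul_r (t : ℝ) (a b : ℝ × ℝ) : cr a (t • b) = t * cr a b := by
  unfold cr
  simp only [Prod.smul_fst, Prod.smul_snd, smul_eq_mul]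
  ring

theorem cr_self' (a : ℝ × ℝ) : cr a a = 0 := by
  unfold cr
  ring

/-- a point at level `h` -/
theorem exists_level {u : ℝ × ℝ} (hu : u ≠ 0) (h : ℝ) : ∃ x : ℝ × ℝ, cr u x = h := by
  have hN : u.1 ^ 2 + u.2 ^ 2 ≠ 0 := by
    intro h0
    apply hu
    have h1 : u.1 = 0 := by nlinarith [sq_nonneg u.1, sq_nonneg u.2]
    have h2 : u.2 = 0 := by nlinarith [sq_nonneg u.1, sq_nonneg u.2]
    exact Prod.ext h1 h2
  refine ⟨(-(h / (u.1 ^ 2 + u.2 ^ 2)) * u.2, h / (u.1 ^ 2 + u.2 ^ 2) * u.1), ?_⟩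
  unfold cr
  field_simp
  ring

/-- points outside of the chord are not interior -/
theorem outside' {C : Set (ℝ × ℝ)} {u q : ℝ × ℝ} {l c : ℝ} (hl : l / 2 ≤ c)
    (h : ∀ s : ℝ, q + s • u ∈ C → |s| ≤ l / 2) : ∀ s : ℝ, c ≤ |s| → q + s • u ∉ interior C := by
  intro s hs hin
  have hcont : Continuous fun s : ℝ => q + s • u := by fun_prop
  have h1 : (fun s : ℝ => q + s • u) ⁻¹' interior C ∈ nhds s :=
    (isOpen_interior.preimage hcont).mem_nhds hin
  obtain ⟨e, he, hb⟩ := Metric.mem_nhds_iff.1 h1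
  rcases le_total 0 s with h0 | h0
  · have h2 : s + e / 2 ∈ Metric.ball s e := by
      rw [Metric.mem_ball, Real.dist_eq]
      have h3 : s + e / 2 - s = e / 2 := by ring
      rw [h3, abs_of_pos (by positivity)]
      linarith
    have h4 := h _ (interior_subset (hb h2))
    rw [abs_of_nonneg (by linarith)] at h4
    rw [abs_of_nonneg h0] at hs
    linarith
  · have h2 : s - e / 2 ∈ Metric.ball s e := by
      rw [Metric.mem_ball, Real.dist_eq]
      have h3 : s - e / 2 - s = -(e / 2) := by ring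
      rw [h3, abs_neg, abs_of_pos (by positivity)]
      linarith
    have h4 := h _ (interior_subset (hb h2))
    rw [abs_of_nonpos (by linarith)] at h4
    rw [abs_of_nonpos h0] at hs
    linarith

theorem chc : ChcStmt := by
  intro C u h w hC hu hu' hw
  have hu0 : u ≠ 0 := fun h0 => hu' (h0 ▸ hC.zero_mem)
  obtain ⟨x₀, hx₀⟩ := exists_level hu0 h
  set S : Set ℝ := {s : ℝ | x₀ + s • u ∈ C} with hS
  rcases S.eq_empty_or_nonempty with hSe | hSne
  · left
    refine ⟨x₀, hx₀, ?_⟩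
    intro s _ hin
    have h1 : x₀ + s • u ∈ C := interior_subset hin
    have h2 : s ∈ S := h1
    rw [hSe] at h2
    exact h2
  have hcont : Continuous fun s : ℝ => x₀ + s • u := by fun_prop
  have hScl : IsClosed S := hC.cpt.isClosed.preimage hcont
  obtain ⟨R, hR⟩ := hC.cpt.isBounded.exists_norm_le
  have hun : 0 < ‖u‖ := norm_pos_iff.2 hu0
  have hSsub : S ⊆ Icc (-((R + ‖x₀‖) / ‖u‖)) ((R + ‖x₀‖) / ‖u‖) := by
    intro s hs
    have h1 := hR _ hs
    have h3 : ‖s • u‖ ≤ R + ‖x₀‖ := by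
      have h4 : s • u = (x₀ + s • u) - x₀ := by abel
      rw [h4]
      refine (norm_sub_le _ _).trans ?_
      linarith
    rw [norm_smul, Real.norm_eq_abs, ← le_div_iff₀ hun] at h3
    exact abs_le.1 h3
  have hScp : IsCompact S := isCompact_Icc.of_isClosed_subset hScl hSsub
  obtain ⟨s₁, hs₁, hs₁'⟩ := hScp.exists_isLeast hSne
  obtain ⟨s₂, hs₂, hs₂'⟩ := hScp.exists_isGreatest hSne
  by_cases hl : s₂ - s₁ ≤ 2 * w
  · left
    refine ⟨x₀ + ((s₁ + s₂) / 2) • u, ?_, ?_⟩
    · rw [cr_add_r, hx₀, cr_smul_r, cr_self']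
      ring
    · apply outside' (l := s₂ - s₁) (by linarith)
      intro s hs
      have h1 : x₀ + ((s₁ + s₂) / 2) • u + s • u = x₀ + ((s₁ + s₂) / 2 + s) • u := by module
      rw [h1] at hs
      have h2 := hs₁' hs
      have h3 := hs₂' hs
      rw [abs_le]
      constructor <;> linarith
  · right
    rw [not_le] at hl
    refine ⟨x₀ + s₁ • u, s₂ - s₁, hs₁, ?_, ?_, hl⟩
    · have h1 : x₀ + s₁ • u + (s₂ - s₁) • u = x₀ + s₂ • u := by module
      rw [h1]
      exact hs₂
    · rw [cr_add_r, hx₀, cr_smul_r, cr_self']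
      ring

end Pool.Agent.UL6.H27
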